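import Mathlib

set_option autoImplicit false

/-!
Continuous selections of lower semicontinuous maps on countable spaces: definitions.
-/

open Set Filter Topology

namespace Pool.Agent.Q213.CS

/-- A set-valued map `φ` is lower semicontinuous if for every open `U` the set of all `y` with
`φ y ∩ U ≠ ∅` is open. -/
def LSC {Y X : Type*} [TopologicalSpace Y] [TopologicalSpace X] (φ : Y → Set X) : Prop :=
  ∀ U : Set X, IsOpen U → IsOpen {y | (φ y ∩ U).Nonempty}

/-- `X` is `Y`-selective: every lower semicontinuous map from `Y` to the nonempty closed subsets of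
`X` has a continuous selection. -/
def Selective (Y X : Type*) [TopologicalSpace Y] [TopologicalSpace X] : Prop :=
  ∀ φ : Y → Set X, (∀ y, IsClosed (φ y)) → (∀ y, (φ y).Nonempty) → LSC φ →
    ∃ f : Y → X, Continuous f ∧ ∀ y, f y ∈ φ y

/-- `X` is `C`-selective: it is `Y`-selective for every countable regular (`T₁`) space `Y`. -/
def CSelective (X : Type*) [TopologicalSpace X] : Prop :=
  ∀ (Y : Type) [TopologicalSpace Y] [Countable Y] [T3Space Y], Selective Y X

/-- The property `α₁` of Arhangel'skii: for countably many sequences which converge to the same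
point `x` there is a set `B`, all but finitely many points of which are in any given
neighbourhood of `x`, that contains all but finitely many points of each of the sequences. -/
def AlphaOne (W : Type*) [TopologicalSpace W] : Prop :=
  ∀ (x : W) (s : ℕ → ℕ → W), (∀ n, Function.Injective (s n)) → (∀ n, Tendsto (s n) atTop (𝓝 x)) →
    ∃ B : Set W, (∀ U ∈ 𝓝 x, (B \ U).Finite) ∧ ∀ n, (range (s n) \ B).Finite

theorem LSC.ev {Y X : Type*} [TopologicalSpace Y] [TopologicalSpace X] {φ : Y → Set X}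
    (h : LSC φ) {y : Y} {x : X} (hx : x ∈ φ y) {U : Set X} (hU : U ∈ 𝓝 x) :
    ∀ᶠ y' in 𝓝 y, (φ y' ∩ U).Nonempty := by
  have h1 := (h (interior U) isOpen_interior).mem_nhds
    (show y ∈ {y | (φ y ∩ interior U).Nonempty} from ⟨x, hx, mem_interior_iff_mem_nhds.2 hU⟩)
  filter_upwards [h1] with y' hy'
  exact hy'.mono (inter_subset_inter_right _ interior_subset)

theorem lsc_of_ev {Y X : Type*} [TopologicalSpace Y] [TopologicalSpace X] {φ : Y → Set X}
    (h : ∀ y, ∀ x ∈ φ y, ∀ U ∈ 𝓝 x, ∀ᶠ y' in 𝓝 y, (φ y' ∩ U).Nonempty) : LSC φ := by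
  intro U hU
  rw [isOpen_iff_mem_nhds]
  rintro y ⟨x, hx, hxU⟩
  exact h y x hx U (hU.mem_nhds hxU)

/-! ### Spaces with one non-isolated point -/

/-- The set `N` with one additional point `none`, whose punctured neighbourhoods are the members of
`𝒢`; the points of `N` are isolated. -/
def XG {N : Type*} (_𝒢 : Filter N) : Type _ := Option N

instance {N : Type*} (𝒢 : Filter N) : TopologicalSpace (XG 𝒢) :=
  nhdsAdjoint (none : Option N) (map some 𝒢)

instance {N : Type*} [Countable N] (𝒢 : Filter N) : Countable (XG 𝒢) :=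
  inferInstanceAs (Countable (Option N))

/-- the new point -/
def XG.inf {N : Type*} (𝒢 : Filter N) : XG 𝒢 := (none : Option N)

/-- the old points -/
def XG.pt {N : Type*} (𝒢 : Filter N) (a : N) : XG 𝒢 := (some a : Option N)

theorem XG.cases {N : Type*} {𝒢 : Filter N} (x : XG 𝒢) :
    x = XG.inf 𝒢 ∨ ∃ a, x = XG.pt 𝒢 a := by
  rcases (x : Option N) with _ | a
  · exact Or.inl rfl
  · exact Or.inr ⟨a, rfl⟩

theorem XG.pt_inj {N : Type*} {𝒢 : Filter N} : Function.Injective (XG.pt 𝒢) :=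
  fun _ _ h => Option.some_injective _ h

theorem XG.pt_ne {N : Type*} {𝒢 : Filter N} (a : N) : XG.pt 𝒢 a ≠ XG.inf 𝒢 :=
  fun h => Option.some_ne_none a h

theorem XG.nhds_inf {N : Type*} (𝒢 : Filter N) :
    𝓝 (XG.inf 𝒢) = pure (XG.inf 𝒢) ⊔ map (XG.pt 𝒢) 𝒢 :=
  nhds_nhdsAdjoint_same (none : Option N) (map some 𝒢)

theorem XG.nhds_pt {N : Type*} (𝒢 : Filter N) (a : N) :
    𝓝 (XG.pt 𝒢 a) = pure (XG.pt 𝒢 a) :=
  nhds_nhdsAdjoint_of_ne (map some 𝒢) (Option.some_ne_none a)

theorem XG.mem_nhds_inf {N : Type*} {𝒢 : Filter N} {U : Set (XG 𝒢)} :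
    U ∈ 𝓝 (XG.inf 𝒢) ↔ XG.inf 𝒢 ∈ U ∧ XG.pt 𝒢 ⁻¹' U ∈ 𝒢 := by
  rw [XG.nhds_inf, mem_sup, mem_pure, mem_map]

theorem XG.t3 {N : Type*} {𝒢 : Filter N} (hfree : ∀ a, {a}ᶜ ∈ 𝒢) : T3Space (XG 𝒢) := by
  have h1 : T1Space (XG 𝒢) := by
    refine ⟨fun x => ?_⟩
    rw [← isOpen_compl_iff, isOpen_iff_mem_nhds]
    intro y hy
    rcases XG.cases y with rfl | ⟨b, rfl⟩
    · rcases XG.cases x with rfl | ⟨a, rfl⟩
      · exact absurd rfl hy
      · refine XG.mem_nhds_inf.2 ⟨hy, ?_⟩
        filter_upwards [hfree a] with b hb h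
        exact hb (XG.pt_inj h)
    · rw [XG.nhds_pt]
      exact mem_pure.2 hy
  have h2 : RegularSpace (XG 𝒢) := by
    refine RegularSpace.of_exists_mem_nhds_isClosed_subset ?_
    intro x s hs
    rcases XG.cases x with rfl | ⟨a, rfl⟩
    · refine ⟨s, hs, ?_, subset_rfl⟩
      rw [← isOpen_compl_iff, isOpen_iff_mem_nhds]
      intro y hy
      rcases XG.cases y with rfl | ⟨b, rfl⟩
      · exact absurd (mem_of_mem_nhds hs) hy
      · rw [XG.nhds_pt]
        exact mem_pure.2 hy
    · refine ⟨{XG.pt 𝒢 a}, ?_, isClosed_singleton, ?_⟩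
      · rw [XG.nhds_pt]
        exact mem_pure.2 rfl
      · rintro _ rfl
        exact mem_of_mem_nhds hs
  exact {}

end Pool.Agent.Q213.CS
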