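import Pool.Agent.Q213.CS.Def

set_option autoImplicit false

/-!
Spaces which are selective for the rationals: selections for countable families of closed sets which
converge to a point along a rank function.
-/

open Set Filter Topology

namespace Pool.Agent.Q213.CS

/-- A partition of the positive rationals into open sets: `q` is in `Pc k m` if the integer part of
`√2 / q` is `k` and the integer part of the inverse of the fractional part is `m + 1`. -/
def Pc (k m : ℕ) : Set ℚ :=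
  {q | 0 < q ∧ (k : ℝ) + 1 / (m + 2) < √2 / q ∧ √2 / q < (k : ℝ) + 1 / (m + 1)}

theorem Pc.disj {k m k' m' : ℕ} {q : ℚ} (h : q ∈ Pc k m) (h' : q ∈ Pc k' m') : k = k' ∧ m = m' := by
  obtain ⟨-, h1, h2⟩ := h
  obtain ⟨-, h3, h4⟩ := h'
  have hp : ∀ j : ℕ, (0 : ℝ) < 1 / ((j : ℝ) + 2) := fun j => by positivity
  have hq : ∀ j : ℕ, 1 / ((j : ℝ) + 1) ≤ 1 := fun j => by
    rw [div_le_one (by positivity)]
    linarith [(Nat.cast_nonneg j : (0 : ℝ) ≤ j)]
  have key : ∀ {k m k' m' : ℕ}, (k : ℝ) + 1 / (m + 2) < √2 / q → √2 / q < (k' : ℝ) + 1 / (m' + 1) →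
      k ≤ k' := by
    intro k m k' m' h1 h4
    have h5 : (k : ℝ) < k' + 1 := by linarith [hp m, hq m']
    exact_mod_cast Nat.lt_succ_iff.1 (by exact_mod_cast h5)
  have hk : k = k' := le_antisymm (key h1 h4) (key h3 h2)
  subst hk
  refine ⟨rfl, ?_⟩
  have key2 : ∀ {m m' : ℕ}, (k : ℝ) + 1 / (m + 2) < √2 / q → √2 / q < (k : ℝ) + 1 / (m' + 1) →
      m' ≤ m := by
    intro m m' h1 h4
    have h5 : 1 / ((m : ℝ) + 2) < 1 / (m' + 1) := by linarith
    rw [div_lt_div_iff₀ (by positivity) (by positivity)] at h5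
    have h6 : (m' : ℝ) < m + 1 := by linarith
    exact Nat.lt_succ_iff.1 (by exact_mod_cast h6)
  exact le_antisymm (key2 h3 h2) (key2 h1 h4)

theorem Pc.cover {q : ℚ} (hq : 0 < q) : ∃ k m, q ∈ Pc k m := by
  have hq' : (0 : ℝ) < q := by exact_mod_cast hq
  have hirr : Irrational (√2 / q) := by
    exact irrational_sqrt_two.div_ratCast (ne_of_gt hq)
  set t : ℝ := √2 / q with ht
  have ht0 : 0 < t := by positivity
  have hk1 : (⌊t⌋₊ : ℝ) < t := lt_of_le_of_ne (Nat.floor_le ht0.le)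
    (fun h => hirr ⟨(⌊t⌋₊ : ℚ), by exact_mod_cast h⟩)
  have hk2 : t < ⌊t⌋₊ + 1 := Nat.lt_floor_add_one t
  set u : ℝ := t - ⌊t⌋₊ with hu
  have hu0 : 0 < u := by linarith
  have hu1 : u < 1 := by linarith
  have huirr : Irrational u := by
    exact hirr.sub_natCast ⌊t⌋₊
  have h1u : 1 < 1 / u := by rw [lt_div_iff₀ hu0]; linarith
  have hfl : 1 ≤ ⌊1 / u⌋₊ := Nat.le_floor (by exact_mod_cast h1u.le)
  refine ⟨⌊t⌋₊, ⌊1 / u⌋₊ - 1, hq, ?_, ?_⟩
  · have h3 : 1 / u < ⌊1 / u⌋₊ + 1 := Nat.lt_floor_add_one _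
    have h4 : ((⌊1 / u⌋₊ - 1 : ℕ) : ℝ) + 2 = ⌊1 / u⌋₊ + 1 := by
      rw [Nat.cast_sub hfl]; push_cast; ring
    rw [h4]
    have h5 : 1 / ((⌊1 / u⌋₊ : ℝ) + 1) < u := by
      rw [div_lt_iff₀ (by positivity)]
      rw [div_lt_iff₀ hu0] at h3
      linarith
    linarith
  · have h3 : (⌊1 / u⌋₊ : ℝ) ≤ 1 / u := Nat.floor_le (by positivity)
    have h4 : ((⌊1 / u⌋₊ - 1 : ℕ) : ℝ) + 1 = ⌊1 / u⌋₊ := by
      rw [Nat.cast_sub hfl]; push_cast; ring
    rw [h4]
    have hfl' : (0 : ℝ) < ⌊1 / u⌋₊ := by exact_mod_cast hfl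
    have h5 : u ≤ 1 / (⌊1 / u⌋₊ : ℝ) := by
      rw [le_div_iff₀ hfl']
      rw [le_div_iff₀ hu0] at h3
      linarith
    have h6 : u ≠ 1 / (⌊1 / u⌋₊ : ℝ) := fun h =>
      huirr ⟨1 / (⌊1 / u⌋₊ : ℚ), by push_cast; exact h.symm⟩
    have h7 := lt_of_le_of_ne h5 h6
    linarith

theorem Pc.isOpen (k m : ℕ) : IsOpen (Pc k m) := by
  rw [isOpen_iff_mem_nhds]
  rintro q ⟨h0, h1, h2⟩
  have hc : ContinuousAt (fun q : ℚ => √2 / (q : ℝ)) q := by
    refine ContinuousAt.div continuousAt_const Rat.continuous_coe_real.continuousAt ?_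
    exact_mod_cast ne_of_gt h0
  filter_upwards [isOpen_lt continuous_const continuous_id |>.mem_nhds h0,
    hc (isOpen_Ioi.mem_nhds h1), hc (isOpen_Iio.mem_nhds h2)] with q' h0 h1 h2
  exact ⟨h0, h1, h2⟩

theorem Pc.nonempty (k m : ℕ) : (Pc k m).Nonempty := by
  have h1 : (k : ℝ) + 1 / (m + 2) < (k : ℝ) + 1 / (m + 1) := by
    have : (1 : ℝ) / (m + 2) < 1 / (m + 1) := by
      rw [div_lt_div_iff₀ (by positivity) (by positivity)]; linarith
    linarith
  have h2 : √2 / ((k : ℝ) + 1 / (m + 1)) < √2 / ((k : ℝ) + 1 / (m + 2)) := by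
    apply div_lt_div_of_pos_left (by positivity) (by positivity) h1
  obtain ⟨q, hq1, hq2⟩ := exists_rat_btwn h2
  have hq0 : (0 : ℝ) < q := lt_trans (by positivity) hq1
  refine ⟨q, by exact_mod_cast hq0, ?_, ?_⟩
  · rw [lt_div_iff₀ (by positivity)] at hq2
    rw [lt_div_iff₀ hq0]
    linarith
  · rw [div_lt_iff₀ (by positivity)] at hq1
    rw [div_lt_iff₀ hq0]
    linarith

theorem Pc.small {k m : ℕ} {q : ℚ} (h : q ∈ Pc k m) : (q : ℝ) * k ≤ √2 := by
  obtain ⟨h0, h1, -⟩ := h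
  have h0' : (0 : ℝ) < q := by exact_mod_cast h0
  rw [lt_div_iff₀ h0'] at h1
  have : (0 : ℝ) < 1 / ((m : ℝ) + 2) * q := by positivity
  linarith

/-- The selection property at one point. -/
theorem fan {X : Type*} [TopologicalSpace X] [T1Space X] (hX : Selective ℚ X) {I : Type*}
    [Countable I] (rank : I → ℕ) (F : I → Set X) (hF : ∀ i, IsClosed (F i))
    (hne : ∀ i, (F i).Nonempty) (x : X)
    (h : ∀ U ∈ 𝓝 x, ∃ n, ∀ i, n ≤ rank i → (F i ∩ U).Nonempty) :
    ∃ g : I → X, (∀ i, g i ∈ F i) ∧ ∀ U ∈ 𝓝 x, ∃ n, ∀ i, n ≤ rank i → g i ∈ U := by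
  classical
  obtain ⟨enc, henc⟩ := exists_injective_nat I
  let G : ℕ → ℕ → Set X := fun k m =>
    {z | (∃ i, rank i = k ∧ enc i = m ∧ z ∈ F i) ∨ ((¬ ∃ i, rank i = k ∧ enc i = m) ∧ z = x)}
  have hG1 : ∀ i, G (rank i) (enc i) = F i := by
    intro i
    ext z
    constructor
    · rintro (⟨j, -, h2, h3⟩ | ⟨h1, -⟩)
      · rw [henc h2] at h3; exact h3
      · exact absurd ⟨i, rfl, rfl⟩ h1
    · exact fun hz => Or.inl ⟨i, rfl, rfl, hz⟩
  have hG2 : ∀ k m, (∃ i, rank i = k ∧ enc i = m) ∨ G k m = {x} := by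
    intro k m
    by_cases hk : ∃ i, rank i = k ∧ enc i = m
    · exact Or.inl hk
    · refine Or.inr ?_
      ext z
      constructor
      · rintro (⟨j, h1, h2, -⟩ | ⟨-, h3⟩)
        · exact absurd ⟨j, h1, h2⟩ hk
        · exact h3
      · exact fun hz => Or.inr ⟨hk, hz⟩
  let Φ : ℚ → Set X := fun q => {z | (q ≤ 0 ∧ z = x) ∨ ∃ k m, q ∈ Pc k m ∧ z ∈ G k m}
  have hΦ0 : ∀ q, q ≤ 0 → Φ q = {x} := by
    intro q hq
    ext z
    constructor
    · rintro (h | ⟨k, m, h1, -⟩)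
      · exact h.2
      · exact absurd h1.1 (not_lt.2 hq)
    · exact fun hz => Or.inl ⟨hq, hz⟩
  have hΦ1 : ∀ q k m, q ∈ Pc k m → Φ q = G k m := by
    intro q k m hq
    ext z
    constructor
    · rintro (h | ⟨k', m', h1, h2⟩)
      · exact absurd hq.1 (not_lt.2 h.1)
      · obtain ⟨rfl, rfl⟩ := Pc.disj hq h1
        exact h2
    · exact fun hz => Or.inr ⟨k, m, hq, hz⟩
  have hGc : ∀ k m, IsClosed (G k m) ∧ (G k m).Nonempty := by
    intro k m
    rcases hG2 k m with ⟨i, rfl, rfl⟩ | h1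
    · rw [hG1]; exact ⟨hF i, hne i⟩
    · rw [h1]; exact ⟨isClosed_singleton, singleton_nonempty x⟩
  have hdich : ∀ q : ℚ, q ≤ 0 ∨ ∃ k m, q ∈ Pc k m := fun q => by
    rcases le_or_gt q 0 with h | h
    · exact Or.inl h
    · exact Or.inr (Pc.cover h)
  obtain ⟨f, hfc, hf⟩ := hX Φ (fun q => by
    rcases hdich q with h1 | ⟨k, m, h1⟩
    · rw [hΦ0 q h1]; exact isClosed_singleton
    · rw [hΦ1 q k m h1]; exact (hGc k m).1) (fun q => by
    rcases hdich q with h1 | ⟨k, m, h1⟩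
    · rw [hΦ0 q h1]; exact singleton_nonempty x
    · rw [hΦ1 q k m h1]; exact (hGc k m).2) (by
    refine lsc_of_ev fun q z hz U hU => ?_
    rcases hdich q with h1 | ⟨k, m, h1⟩
    · rw [hΦ0 q h1] at hz
      obtain rfl : z = x := hz
      obtain ⟨n, hn⟩ := h U hU
      have h2 : ∀ᶠ q' : ℚ in 𝓝 q, (q' : ℝ) * (n + 1) < √2 := by
        have hc : Continuous (fun q' : ℚ => (q' : ℝ) * (n + 1)) :=
          Rat.continuous_coe_real.mul continuous_const
        refine (isOpen_lt hc continuous_const).mem_nhds ?_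
        have h3 : (q : ℝ) ≤ 0 := by exact_mod_cast h1
        have h4 : (q : ℝ) * (n + 1) ≤ 0 := mul_nonpos_of_nonpos_of_nonneg h3 (by positivity)
        have h5 : (0 : ℝ) < √2 := by positivity
        exact lt_of_le_of_lt h4 h5
      filter_upwards [h2] with q' h2
      rcases hdich q' with h3 | ⟨k, m, h3⟩
      · rw [hΦ0 q' h3]
        exact ⟨z, rfl, mem_of_mem_nhds hU⟩
      · rw [hΦ1 q' k m h3]
        rcases hG2 k m with ⟨i, rfl, rfl⟩ | h4
        · rw [hG1]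
          refine hn i ?_
          by_contra hcon
          push Not at hcon
          obtain ⟨h5, -, h6⟩ := h3
          have h5' : (0 : ℝ) < q' := by exact_mod_cast h5
          rw [div_lt_iff₀ h5'] at h6
          have h7 : (rank i : ℝ) + 1 ≤ n := by exact_mod_cast hcon
          have h8 : 1 / ((enc i : ℝ) + 1) ≤ 1 := by
            rw [div_le_one (by positivity)]
            linarith [(Nat.cast_nonneg (enc i) : (0 : ℝ) ≤ enc i)]
          have h9 : ((rank i : ℝ) + 1 / ((enc i : ℝ) + 1)) * q' ≤ (n + 1) * q' := by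
            apply mul_le_mul_of_nonneg_right _ h5'.le
            linarith
          linarith
        · rw [h4]
          exact ⟨z, rfl, mem_of_mem_nhds hU⟩
    · filter_upwards [(Pc.isOpen k m).mem_nhds h1] with q' h2
      rw [hΦ1 q k m h1] at hz
      rw [hΦ1 q' k m h2]
      exact ⟨z, hz, mem_of_mem_nhds hU⟩)
  choose Q hQ using Pc.nonempty
  refine ⟨fun i => f (Q (rank i) (enc i)), fun i => ?_, fun U hU => ?_⟩
  · have h1 := hf (Q (rank i) (enc i))
    rw [hΦ1 _ _ _ (hQ (rank i) (enc i)), hG1] at h1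
    exact h1
  · have h0 : f 0 = x := by
      have h1 := hf 0
      rw [hΦ0 0 le_rfl] at h1
      exact h1
    have h1 : ∀ᶠ q in 𝓝 (0 : ℚ), f q ∈ U := by
      have := hfc.continuousAt (x := (0 : ℚ))
      rw [ContinuousAt, h0] at this
      exact this hU
    rw [Metric.eventually_nhds_iff] at h1
    obtain ⟨ε, hε, h1⟩ := h1
    obtain ⟨n, hn⟩ := exists_nat_gt (√2 / ε)
    refine ⟨n, fun i hi => h1 ?_⟩
    have h2 := hQ (rank i) (enc i)
    have h3 := Pc.small h2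
    have h4 : (0 : ℝ) < Q (rank i) (enc i) := by exact_mod_cast h2.1
    have h5 : dist (Q (rank i) (enc i)) 0 = (Q (rank i) (enc i) : ℝ) := by
      rw [Rat.dist_eq]
      simp [abs_of_pos h4]
    rw [h5]
    rw [div_lt_iff₀ hε] at hn
    have h6 : (n : ℝ) ≤ rank i := by exact_mod_cast hi
    have hn0 : (0 : ℝ) < n := by
      have : (0 : ℝ) < √2 := by positivity
      by_contra hcon
      have : (n : ℝ) * ε ≤ 0 := mul_nonpos_of_nonpos_of_nonneg (not_lt.1 hcon) hε.le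
      linarith
    have h7 : (Q (rank i) (enc i) : ℝ) * n ≤ √2 :=
      le_trans (mul_le_mul_of_nonneg_left h6 h4.le) h3
    by_contra hcon
    push Not at hcon
    have h8 : ε * n ≤ (Q (rank i) (enc i) : ℝ) * n := mul_le_mul_of_nonneg_right hcon hn0.le
    linarith

end Pool.Agent.Q213.CS
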