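import Pool.Agent.Q213.CS.NoA

set_option autoImplicit false

/-!
If all countable Fréchet `α₁`-spaces are first countable, then all `ℚ`-selective spaces are
`C`-selective: end of the proof.
-/

open Set Filter Topology

namespace Pool.Agent.Q213.CS

theorem cg_of_seq {α : Type*} {f : Filter α} (s : ℕ → Set α) (h1 : ∀ k, s k ∈ f)
    (h2 : ∀ t ∈ f, ∃ k, s k ⊆ t) : f.IsCountablyGenerated := by
  have hb : f.HasBasis (fun _ : ℕ => True) s :=
    ⟨fun t => ⟨fun ht => (h2 t ht).imp fun k hk => ⟨trivial, hk⟩,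
      fun ⟨k, _, hk⟩ => mem_of_superset (h1 k) hk⟩⟩
  exact Filter.HasCountableBasis.isCountablyGenerated ⟨hb, to_countable _⟩

section

variable {X : Type*} [TopologicalSpace X] [T1Space X]

theorem local_sel (hDS : DS) (hX : Selective ℚ X) {Y : Type} [TopologicalSpace Y] [Countable Y]
    {φ : Y → Set X} (hc : ∀ y, IsClosed (φ y)) (hne : ∀ y, (φ y).Nonempty) (hl : LSC φ) {y : Y}
    {x : X} (hx : x ∈ φ y) :
    ∃ h : Y → X, (∀ y', h y' ∈ φ y') ∧ Tendsto h (𝓝 y) (𝓝 x) := by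
  classical
  obtain ⟨V, hV1, hV2, hV3, hV4⟩ := key hDS hX (N := {y' : Y // x ∉ φ y'}) (fun i => φ i.1)
    (fun i => hc _) (fun i => hne _) x (fun i => i.2)
  let rank : {y' : Y // x ∉ φ y'} → ℕ := fun i => Nat.find (hV2 i)
  have hr1 : ∀ i k, k < rank i → (φ i.1 ∩ V k).Nonempty := fun i k hk =>
    not_not.1 (Nat.find_min (hV2 i) hk)
  have hr2 : ∀ i k, (φ i.1 ∩ V k).Nonempty → k < rank i := by
    intro i k hk
    by_contra hcon
    exact Nat.find_spec (hV2 i) (hV3 _ _ (not_lt.1 hcon) i hk)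
  obtain ⟨g, hg1, hg2⟩ := fan hX rank (fun i => φ i.1) (fun i => hc _) (fun i => hne _) x (by
    intro U hU
    obtain ⟨k, hk⟩ := hV4 U hU
    exact ⟨k + 1, fun i hi => hk i (hr1 i k (by omega))⟩)
  refine ⟨fun y' => if h : x ∈ φ y' then x else g ⟨y', h⟩, fun y' => ?_, ?_⟩
  · by_cases h : x ∈ φ y'
    · simp only [dif_pos h]; exact h
    · simp only [dif_neg h]; exact hg1 ⟨y', h⟩
  · intro U hU
    obtain ⟨n, hn⟩ := hg2 U hU
    rw [mem_map]
    filter_upwards [hl.ev hx (hV1 n)] with y' hy'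
    show (if h : x ∈ φ y' then x else g ⟨y', h⟩) ∈ U
    by_cases h : x ∈ φ y'
    · rw [dif_pos h]; exact mem_of_mem_nhds hU
    · rw [dif_neg h]; exact hn _ (hr2 ⟨y', h⟩ n hy').le

theorem fc_sub (hDS : DS) (hX : Selective ℚ X) {C : Set X} (hC : C.Countable) :
    FirstCountableTopology C := by
  refine ⟨fun x => ?_⟩
  obtain ⟨c, hc⟩ := hC.exists_eq_range ⟨x.1, x.2⟩
  obtain ⟨V, hV1, -, -, hV4⟩ := key hDS hX (N := {i : ℕ // c i ≠ x.1}) (fun i => {c i.1})
    (fun i => isClosed_singleton) (fun i => singleton_nonempty _) x.1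
    (fun i h => i.2 (mem_singleton_iff.1 h).symm)
  rw [nhds_subtype]
  refine cg_of_seq (fun k => Subtype.val ⁻¹' V k) (fun k => preimage_mem_comap (hV1 k)) ?_
  intro t ht
  obtain ⟨U, hU, hUt⟩ := mem_comap.1 ht
  obtain ⟨k, hk⟩ := hV4 U hU
  refine ⟨k, fun z hz => hUt ?_⟩
  by_cases h : z = x
  · rw [h]; exact (mem_of_mem_nhds hU : x.1 ∈ U)
  · have h1 : z.1 ∈ range c := hc ▸ z.2
    obtain ⟨i, hi⟩ := h1
    have h2 : c i ≠ x.1 := fun h' => h (Subtype.ext (hi.symm.trans h'))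
    obtain ⟨w, hw1, hw2⟩ := hk ⟨i, h2⟩ ⟨c i, rfl, by rw [hi]; exact hz⟩
    rw [mem_singleton_iff.1 hw1, hi] at hw2
    exact hw2

/-- If all countable Fréchet `α₁`-spaces are first countable, then all `ℚ`-selective spaces are
`C`-selective. -/
theorem mainA (hDS : DS) (hX : Selective ℚ X) : CSelective X := by
  classical
  intro Y _ _ _ φ hc hne hl
  have hH : ∀ (y : Y) (x : X), ∃ h : Y → X, x ∈ φ y →
      (∀ y', h y' ∈ φ y') ∧ Tendsto h (𝓝 y) (𝓝 x) := by
    intro y x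
    by_cases hx : x ∈ φ y
    · obtain ⟨h, h1⟩ := local_sel hDS hX hc hne hl hx
      exact ⟨h, fun _ => h1⟩
    · exact ⟨fun y' => (hne y').some, fun h => absurd h hx⟩
  choose H hH using hH
  let C : ℕ → Set X := fun n => Nat.rec (range fun y => (hne y).some)
    (fun _ C => C ∪ ⋃ y, ⋃ x ∈ C, range (H y x)) n
  have hCs : ∀ n, C (n + 1) = C n ∪ ⋃ y, ⋃ x ∈ C n, range (H y x) := fun n => rfl
  have hCc : ∀ n, (C n).Countable := by
    intro n
    induction n with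
    | zero => exact countable_range _
    | succ n ih =>
      rw [hCs]
      exact ih.union (countable_iUnion fun y => ih.biUnion fun x _ => countable_range _)
  have hCu : (⋃ n, C n).Countable := countable_iUnion hCc
  have hfc : FirstCountableTopology (⋃ n, C n : Set X) := fc_sub hDS hX hCu
  let ψ : Y → Set (⋃ n, C n : Set X) := fun y => {z | z.1 ∈ φ y}
  obtain ⟨f, hf1, hf2⟩ := michael (φ := ψ) (by
    refine lsc_of_ev fun y z hz U hU => ?_
    obtain ⟨V, hV, hVU⟩ := mem_nhds_subtype _ _ _ |>.1 hU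
    obtain ⟨n, hn⟩ := mem_iUnion.1 z.2
    obtain ⟨h1, h2⟩ := hH y z.1 hz
    filter_upwards [h2 hV] with y' hy'
    have h3 : H y z.1 y' ∈ C (n + 1) := by
      rw [hCs]
      exact Or.inr (mem_iUnion.2 ⟨y, mem_iUnion₂.2 ⟨z.1, hn, ⟨y', rfl⟩⟩⟩)
    exact ⟨⟨H y z.1 y', mem_iUnion.2 ⟨n + 1, h3⟩⟩, h1 y', hVU hy'⟩) (by
    intro y
    exact ⟨⟨(hne y).some, mem_iUnion.2 ⟨0, ⟨y, rfl⟩⟩⟩, (hne y).some_mem⟩)
  exact ⟨fun y => (f y).1, continuous_subtype_val.comp hf1, hf2⟩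

end

end Pool.Agent.Q213.CS
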