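import Pool.Agent.Q213.CS.St
import Pool.Agent.H752R3.Recursion

set_option autoImplicit false

/-!
Under the continuum hypothesis there is a countable `ℚ`-selective space which is not `C`-selective.
-/

open Set Filter Topology Cardinal

namespace Pool.Agent.Q213.CS

/-- The index set of the recursion. -/
abbrev Lam : Type := (Cardinal.ord ℵ₁).ToType

/-- The tasks. -/
abbrev Tsk : Type := (ℚ → Set (Option ℕ)) × (ℕ → Set ℕ)

theorem mk_lam : #Lam = ℵ₁ := by simp [Lam]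

theorem mk_tsk : #Tsk = 𝔠 := by
  have h1 : #(ℚ → Set (Option ℕ)) = 𝔠 := by
    simp
  have h2 : #(ℕ → Set ℕ) = 𝔠 := by
    simp
  rw [Tsk, Cardinal.mk_prod, h1, h2]
  simp

theorem countable_Iio_lam (a : Lam) : (Set.Iio a).Countable := by
  have h := Cardinal.mk_Iio_lt a (by simp [Lam])
  rw [mk_lam] at h
  rw [← Cardinal.le_aleph0_iff_set_countable]
  exact Order.lt_succ_iff.1 (lt_of_lt_of_eq h Cardinal.succ_aleph0.symm)

theorem exists_enum (hCH : (𝔠 : Cardinal.{0}) = ℵ₁) : ∃ e : Lam → Tsk, ∀ a i, ∃ b, a ≤ b ∧ e b = i := by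
  have h1 : #Lam = #(Lam × Tsk) := by
    rw [Cardinal.mk_prod, Cardinal.lift_id, Cardinal.lift_id, mk_tsk, mk_lam, hCH]
    exact (Cardinal.mul_eq_self Cardinal.aleph0_lt_aleph_one.le).symm
  obtain ⟨g⟩ := Cardinal.eq.1 h1
  refine ⟨fun b => (g b).2, fun a i => ?_⟩
  by_contra hcon
  push Not at hcon
  have h2 : (range fun c : Lam => g.symm (c, i)) ⊆ Set.Iio a := by
    rintro _ ⟨c, rfl⟩
    by_contra h3
    exact hcon (g.symm (c, i)) (not_lt.1 h3) (by simp)
  have h4 : (range fun c : Lam => g.symm (c, i)).Countable := (countable_Iio_lam a).mono h2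
  have h5 : Function.Injective fun c : Lam => g.symm (c, i) := fun c d h => by
    have := g.symm.injective h
    exact (Prod.mk.inj this).1
  have h6 := Cardinal.mk_range_eq _ h5
  rw [mk_lam] at h6
  have h7 := h4.le_aleph0
  rw [h6] at h7
  exact absurd h7 (not_le.2 Cardinal.aleph0_lt_aleph_one)

theorem mainB (hCH : (𝔠 : Cardinal.{0}) = ℵ₁) : ∃ 𝒢 : Filter ℕ, (∀ a, {a}ᶜ ∈ 𝒢) ∧ Selective ℚ (XG 𝒢) ∧
    ¬ CSelective (XG 𝒢) := by
  classical
  obtain ⟨e, he⟩ := exists_enum hCH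
  obtain ⟨F, hF1, hF2⟩ := Pool.Agent.H752R3.sigma_closed_recursion countable_Iio_lam Ext Ext.rfl'
    (fun _ _ _ h h' => h.trans' h') closed (fun a s => Treat (e a).1 s ∧ TreatV (e a).2 s)
    (fun a s => by
      obtain ⟨s1, h1, h2⟩ := treat s (e a).1
      obtain ⟨s2, h3, h4⟩ := treatV s1 (e a).2
      exact ⟨s2, h3.trans' h1, h2.mono h3, h4⟩)
  have hdir : Directed (· ≥ ·) fun a => (F a).𝒢 := by
    intro a b
    exact ⟨max a b, (hF1 _ _ (le_max_left _ _)).1, (hF1 _ _ (le_max_right _ _)).1⟩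
  have hne : Nonempty Lam := by
    rw [← Cardinal.mk_ne_zero_iff, mk_lam]
    exact (Cardinal.aleph_pos 1).ne'
  let 𝒢 : Filter ℕ := ⨅ a, (F a).𝒢
  have hle : ∀ a, 𝒢 ≤ (F a).𝒢 := fun a => iInf_le _ a
  have hfree : ∀ a, {a}ᶜ ∈ 𝒢 := fun a =>
    (hle hne.some).trans (F hne.some).free (by simp)
  have ht3 : T3Space (XG 𝒢) := XG.t3 hfree
  refine ⟨𝒢, hfree, ?_, fun hC => ?_⟩
  · intro Φ hcl hne' hL
    obtain ⟨a, -, ha⟩ := he hne.some (Φ, fun _ => univ)
    have h1 := (hF2 a).1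
    rw [ha] at h1
    rcases h1 with ⟨q, hq⟩ | h1 | ⟨f, h2, h3, h4⟩
    · exact absurd (hne' q) hq
    · exact absurd (L.mono (hle a) hL) h1
    · refine ⟨f, cont_of_cf (𝒢 := 𝒢) f ⟨h3, fun q hq => ?_⟩, h2⟩
      obtain ⟨E, hE⟩ := h4 q hq
      refine le_iInf fun b => ?_
      rcases le_total a b with h | h
      · exact (F b).le _ ((hF1 a b h).2 hE)
      · exact ((F a).le _ hE).trans (hF1 b a h).1
  · have hcg := notC hfree hC
    obtain ⟨V, hV⟩ := 𝒢.exists_antitone_basis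
    have h1 : ∀ k, ∃ a, V k ∈ (F a).𝒢 := fun k =>
      (mem_iInf_of_directed hdir _).1 (hV.toHasBasis.mem_of_mem trivial)
    choose c hc using h1
    obtain ⟨a, ha⟩ : ∃ a, ∀ k, c k ≤ a := by
      by_contra hcon
      push Not at hcon
      have h2 : (univ : Set Lam) ⊆ ⋃ k, Set.Iio (c k) := by
        intro a _
        obtain ⟨k, hk⟩ := hcon a
        exact mem_iUnion.2 ⟨k, hk⟩
      have h3 := (countable_iUnion fun k => countable_Iio_lam (c k)).mono h2
      have h4 := h3.le_aleph0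
      rw [Cardinal.mk_univ, mk_lam] at h4
      exact absurd h4 (not_le.2 Cardinal.aleph0_lt_aleph_one)
    obtain ⟨b, hab, hb⟩ := he a (fun _ => ∅, V)
    have h5 := (hF2 b).2
    rw [hb] at h5
    obtain ⟨G, hG1, hG2⟩ := h5 fun k => (hF1 (c k) b ((ha k).trans hab)).1 (hc k)
    obtain ⟨k, -, hk⟩ := hV.toHasBasis.mem_iff.1 (hle b hG1)
    exact hG2 k hk

end Pool.Agent.Q213.CS
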