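import Pool.Agent.Q213.CS.Def

set_option autoImplicit false

/-!
Michael's theorem: lower semicontinuous maps from a countable regular space to the nonempty subsets
of a first countable space have continuous selections.
-/

open Set Filter Topology

namespace Pool.Agent.Q213.CS

/-- Countable regular `T₁` spaces have a base of clopen sets. -/
theorem exists_clopen {Y : Type*} [TopologicalSpace Y] [Countable Y] [T3Space Y] {y : Y}
    {U : Set Y} (hU : U ∈ 𝓝 y) : ∃ W, IsClopen W ∧ y ∈ W ∧ W ⊆ U := by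
  have hd : Disjoint ({y} : Set Y) (interior U)ᶜ := by
    rw [disjoint_singleton_left]
    exact fun h => h (mem_interior_iff_mem_nhds.2 hU)
  obtain ⟨f, h0, h1, -⟩ := exists_continuous_zero_one_of_isClosed isClosed_singleton
    (isOpen_interior.isClosed_compl) hd
  have hc : (range f).Countable := countable_range _
  obtain ⟨t, ht, htr⟩ : ∃ t ∈ Ioo (0 : ℝ) 1, t ∉ range f := by
    by_contra hcon
    push Not at hcon
    have h2 : (Ioo (0 : ℝ) 1).Countable := hc.mono hcon
    have h3 := Cardinal.mk_Ioo_real (zero_lt_one' ℝ)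
    have h4 := h2.le_aleph0
    rw [h3] at h4
    exact absurd h4 (not_le.2 Cardinal.aleph0_lt_continuum)
  refine ⟨{z | f z < t}, ⟨?_, isOpen_lt f.continuous continuous_const⟩, ?_, ?_⟩
  · have h5 : {z | f z < t} = {z | f z ≤ t} := by
      ext z
      constructor
      · intro h
        exact le_of_lt (show f z < t from h)
      · intro h
        have h' : f z ≤ t := h
        exact lt_of_le_of_ne h' fun h6 => htr ⟨z, h6⟩
    rw [h5]
    exact isClosed_le f.continuous continuous_const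
  · have h6 : f y = 0 := h0 rfl
    simp only [mem_ofPred_eq, h6]
    exact ht.1
  · intro z hz
    by_contra hcon
    have h7 : z ∈ (interior U)ᶜ := fun h => hcon (interior_subset h)
    have h8 : f z = 1 := h1 h7
    simp only [mem_ofPred_eq, h8] at hz
    exact absurd ht.2 (not_lt.2 hz.le)

section

variable {Y X : Type*} [TopologicalSpace Y] [TopologicalSpace X]

/-- The points which are treated before the stage `n`. -/
def Bef (e : ℕ → Y) (n : ℕ) : Set Y := {y | ∃ i < n, e i = y}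

theorem Bef.mono (e : ℕ → Y) {m n : ℕ} (h : m ≤ n) : Bef e m ⊆ Bef e n := by
  rintro y ⟨i, hi, rfl⟩
  exact ⟨i, lt_of_lt_of_le hi h, rfl⟩

theorem Bef.finite (e : ℕ → Y) (n : ℕ) : (Bef e n).Finite := by
  refine ((Set.finite_Iio n).image e).subset ?_
  rintro y ⟨i, hi, rfl⟩
  exact ⟨i, hi, rfl⟩

/-- The invariant of the recursion: `c` assigns to every point which is not yet treated an open set
which meets `φ y`, locally constant. -/
structure Inv (φ : Y → Set X) (e : ℕ → Y) (n : ℕ) (c : Y → Set X) : Prop where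
  op : ∀ y, y ∉ Bef e n → IsOpen (c y)
  ne : ∀ y, y ∉ Bef e n → (φ y ∩ c y).Nonempty
  loc : ∀ y, y ∉ Bef e n → ∀ᶠ y' in 𝓝 y, c y' = c y

theorem step [Countable Y] [T3Space Y] [FirstCountableTopology X] {φ : Y → Set X} (hφ : LSC φ)
    (e : ℕ → Y) (he : Function.Surjective e) (n : ℕ) (c : Y → Set X) (hc : Inv φ e n c)
    (hn : e n ∉ Bef e n) :
    ∃ (c' : Y → Set X) (x : X), Inv φ e (n + 1) c' ∧ x ∈ φ (e n) ∧ x ∈ c (e n) ∧
      (∀ y, y ∉ Bef e (n + 1) → c' y ⊆ c y) ∧
      ∀ U ∈ 𝓝 x, ∀ᶠ y in 𝓝 (e n), y ∉ Bef e (n + 1) → c' y ⊆ U := by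
  classical
  obtain ⟨x, hx, hxc⟩ := hc.ne _ hn
  obtain ⟨B0, hB0⟩ := (𝓝 x).exists_antitone_basis
  let B : ℕ → Set X := fun k => interior (B0 k) ∩ c (e n)
  have hBo : ∀ k, IsOpen (B k) := fun k => isOpen_interior.inter (hc.op _ hn)
  have hBx : ∀ k, x ∈ B k := fun k =>
    ⟨mem_interior_iff_mem_nhds.2 (hB0.toHasBasis.mem_of_mem trivial), hxc⟩
  have hBanti : ∀ {j k}, j ≤ k → B k ⊆ B j := fun {j k} h =>
    inter_subset_inter_left _ (interior_mono (hB0.antitone h))
  have hBs : ∀ U ∈ 𝓝 x, ∃ k, B k ⊆ U := by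
    intro U hU
    obtain ⟨k, -, hk⟩ := hB0.toHasBasis.mem_iff.1 hU
    exact ⟨k, inter_subset_left.trans (interior_subset.trans hk)⟩
  have hW0 : ∀ k, ∃ W, IsClopen W ∧ e n ∈ W ∧
      W ⊆ {y | (φ y ∩ B k).Nonempty ∧ c y = c (e n) ∧ (e k ≠ e n → y ≠ e k)} := by
    intro k
    refine exists_clopen ?_
    have h1 : ∀ᶠ y in 𝓝 (e n), (φ y ∩ B k).Nonempty := hφ.ev hx ((hBo k).mem_nhds (hBx k))
    have h2 := hc.loc _ hn
    have h3 : ∀ᶠ y in 𝓝 (e n), e k ≠ e n → y ≠ e k := by
      by_cases h : e k = e n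
      · exact Eventually.of_forall fun y h' => absurd h h'
      · have : ({e k} : Set Y)ᶜ ∈ 𝓝 (e n) := isOpen_compl_singleton.mem_nhds (fun h' => h h'.symm)
        filter_upwards [this] with y hy _ h'
        exact hy h'
    filter_upwards [h1, h2, h3] with y h1 h2 h3 using ⟨h1, h2, h3⟩
  choose W hWc hWe hWs using hW0
  have hout : ∀ y, y ≠ e n → ∃ k, y ∉ W k := by
    intro y hy
    obtain ⟨k, rfl⟩ := he y
    exact ⟨k, fun h => (hWs k h).2.2 hy rfl⟩
  let c' : Y → Set X := fun y => if h : ∃ k, y ∉ W k then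
    (if Nat.find h = 0 then c y else B (Nat.find h - 1)) else ∅
  -- the value of `c'`
  have hval : ∀ y k, y ∉ W k → (∀ i < k, y ∈ W i) → c' y = if k = 0 then c y else B (k - 1) := by
    intro y k h1 h2
    have h : ∃ k, y ∉ W k := ⟨k, h1⟩
    have hf : Nat.find h = k := by
      rw [Nat.find_eq_iff]
      exact ⟨h1, fun i hi => not_not.2 (h2 i hi)⟩
    simp only [c', dif_pos h, hf]
  have hrank : ∀ y, y ≠ e n → ∃ k, y ∉ W k ∧ ∀ i < k, y ∈ W i := by
    intro y hy
    have h := hout y hy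
    exact ⟨Nat.find h, Nat.find_spec h, fun i hi => not_not.1 (Nat.find_min h hi)⟩
  have hbef : ∀ y, y ∉ Bef e (n + 1) → y ≠ e n ∧ y ∉ Bef e n := fun y hy =>
    ⟨fun h => hy ⟨n, Nat.lt_succ_self n, h.symm⟩, fun h => hy (Bef.mono e (Nat.le_succ n) h)⟩
  refine ⟨c', x, ⟨?_, ?_, ?_⟩, hx, hxc, ?_, ?_⟩
  · intro y hy
    obtain ⟨h1, h2⟩ := hbef y hy
    obtain ⟨k, hk, hk'⟩ := hrank y h1
    rw [hval y k hk hk']
    split_ifs
    · exact hc.op y h2
    · exact hBo _
  · intro y hy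
    obtain ⟨h1, h2⟩ := hbef y hy
    obtain ⟨k, hk, hk'⟩ := hrank y h1
    rw [hval y k hk hk']
    split_ifs with h0
    · exact hc.ne y h2
    · exact (hWs (k - 1) (hk' _ (by omega))).1
  · intro y hy
    obtain ⟨h1, h2⟩ := hbef y hy
    obtain ⟨k, hk, hk'⟩ := hrank y h1
    have h3 : ∀ᶠ y' in 𝓝 y, y' ∉ W k := (hWc k).1.isOpen_compl.mem_nhds hk
    have h4 : ∀ᶠ y' in 𝓝 y, ∀ i ∈ Finset.range k, y' ∈ W i := by
      rw [Filter.eventually_all_finset]
      intro i hi
      exact (hWc i).2.mem_nhds (hk' i (Finset.mem_range.1 hi))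
    filter_upwards [h3, h4, hc.loc y h2] with y' h3 h4 h5
    rw [hval y k hk hk', hval y' k h3 (fun i hi => h4 i (Finset.mem_range.2 hi)), h5]
  · intro y hy
    obtain ⟨h1, h2⟩ := hbef y hy
    obtain ⟨k, hk, hk'⟩ := hrank y h1
    rw [hval y k hk hk']
    split_ifs with h0
    · exact subset_rfl
    · rw [(hWs 0 (hk' 0 (by omega))).2.1]
      exact inter_subset_right
  · intro U hU
    obtain ⟨k0, hk0⟩ := hBs U hU
    have h4 : ∀ᶠ y' in 𝓝 (e n), ∀ i ∈ Finset.range (k0 + 1), y' ∈ W i := by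
      rw [Filter.eventually_all_finset]
      intro i _
      exact (hWc i).2.mem_nhds (hWe i)
    filter_upwards [h4] with y h4 hy
    obtain ⟨h1, h2⟩ := hbef y hy
    obtain ⟨k, hk, hk'⟩ := hrank y h1
    have h5 : k0 < k := by
      by_contra hcon
      exact hk (h4 k (Finset.mem_range.2 (by omega)))
    rw [hval y k hk hk', if_neg (by omega)]
    exact (hBanti (by omega)).trans hk0

/-- **Michael's theorem.** -/
theorem michael [Countable Y] [T3Space Y] [FirstCountableTopology X] {φ : Y → Set X}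
    (hφ : LSC φ) (hne : ∀ y, (φ y).Nonempty) : ∃ f : Y → X, Continuous f ∧ ∀ y, f y ∈ φ y := by
  classical
  rcases isEmpty_or_nonempty Y with hY | hY
  · exact ⟨fun y => (hY.false y).elim, continuous_of_const fun y => (hY.false y).elim,
      fun y => (hY.false y).elim⟩
  obtain ⟨e, he⟩ := exists_surjective_nat Y
  have hstep : ∀ (n : ℕ) (c : {c : Y → Set X // Inv φ e n c}),
      ∃ (c' : {c : Y → Set X // Inv φ e (n + 1) c}) (x : X), x ∈ φ (e n) ∧
        (∀ y, y ∉ Bef e (n + 1) → c'.1 y ⊆ c.1 y) ∧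
        (e n ∉ Bef e n → x ∈ c.1 (e n) ∧
          ∀ U ∈ 𝓝 x, ∀ᶠ y in 𝓝 (e n), y ∉ Bef e (n + 1) → c'.1 y ⊆ U) := by
    intro n c
    by_cases hn : e n ∈ Bef e n
    · have hB : Bef e (n + 1) = Bef e n := by
        refine Subset.antisymm ?_ (Bef.mono e (Nat.le_succ n))
        rintro y ⟨i, hi, rfl⟩
        rcases Nat.lt_succ_iff_lt_or_eq.1 hi with h | rfl
        · exact ⟨i, h, rfl⟩
        · exact hn
      obtain ⟨x, hx⟩ := hne (e n)
      have hI : Inv φ e (n + 1) c.1 := by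
        refine ⟨?_, ?_, ?_⟩
        · rw [hB]; exact c.2.op
        · rw [hB]; exact c.2.ne
        · rw [hB]; exact c.2.loc
      exact ⟨⟨c.1, hI⟩, x, hx, fun _ _ => subset_rfl, fun h => absurd hn h⟩
    · obtain ⟨c', x, h1, h2, h3, h4, h5⟩ := step hφ e he n c.1 c.2 hn
      exact ⟨⟨c', h1⟩, x, h2, h4, fun _ => ⟨h3, h5⟩⟩
  choose nxt val h1 h2 h3 using hstep
  let C : ∀ n, {c : Y → Set X // Inv φ e n c} := fun n => Nat.rec
    ⟨fun _ => univ, ⟨fun _ _ => isOpen_univ, fun y _ => by simpa using hne y,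
      fun _ _ => Eventually.of_forall fun _ => rfl⟩⟩ (fun n c => nxt n c) n
  have hC : ∀ n, C (n + 1) = nxt n (C n) := fun n => rfl
  let x : ℕ → X := fun n => val n (C n)
  let f : Y → X := fun y => x (Nat.find (he y))
  have hf : ∀ n, e n ∉ Bef e n → f (e n) = x n := by
    intro n hn
    have : Nat.find (he (e n)) = n := by
      rw [Nat.find_eq_iff]
      exact ⟨rfl, fun i hi h => hn ⟨i, hi, h⟩⟩
    simp only [f, this]
  have hfirst : ∀ y, ∃ n, e n = y ∧ e n ∉ Bef e n := by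
    intro y
    refine ⟨Nat.find (he y), Nat.find_spec (he y), ?_⟩
    rintro ⟨i, hi, h⟩
    exact Nat.find_min (he y) hi (h.trans (Nat.find_spec (he y)))
  have hmono : ∀ m n, n ≤ m → ∀ y, y ∉ Bef e m → (C m).1 y ⊆ (C n).1 y := by
    intro m n hnm
    induction m, hnm using Nat.le_induction with
    | base => exact fun y _ => subset_rfl
    | succ m hm ih =>
      intro y hy
      rw [hC]
      exact (h2 m (C m) y hy).trans (ih y fun h => hy (Bef.mono e (Nat.le_succ m) h))
  refine ⟨f, ?_, ?_⟩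
  · rw [continuous_iff_continuousAt]
    intro y
    obtain ⟨n, rfl, hn⟩ := hfirst y
    rw [ContinuousAt, hf n hn]
    intro U hU
    have h4 := (h3 n (C n) hn).2 U hU
    have h5 : ∀ᶠ y in 𝓝 (e n), y ∉ Bef e n :=
      (Bef.finite e n).isClosed.isOpen_compl.mem_nhds hn
    rw [mem_map]
    filter_upwards [h4, h5] with y h4 h5
    obtain ⟨m, rfl, hm⟩ := hfirst y
    by_cases hmn : e m = e n
    · show f (e m) ∈ U
      rw [hmn, hf n hn]
      exact mem_of_mem_nhds hU
    · have h6 : e m ∉ Bef e (n + 1) := by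
        rintro ⟨i, hi, h⟩
        rcases Nat.lt_succ_iff_lt_or_eq.1 hi with h' | rfl
        · exact h5 ⟨i, h', h⟩
        · exact hmn h.symm
      have h7 : n + 1 ≤ m := by
        by_contra hcon
        exact h6 ⟨m, by omega, rfl⟩
      show f (e m) ∈ U
      rw [hf m hm]
      have h8 := (h3 m (C m) hm).1
      have h9 := hmono m (n + 1) h7 (e m) hm h8
      rw [hC] at h9
      exact h4 h6 h9
  · intro y
    obtain ⟨n, rfl, hn⟩ := hfirst y
    rw [hf n hn]
    exact h1 n (C n)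

end

end Pool.Agent.Q213.CS
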