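import Pool.Agent.Q213.CS.Michael
import Pool.Agent.Q213.CS.Fan

set_option autoImplicit false

/-!
If all countable Fréchet `α₁`-spaces are first countable, then all `ℚ`-selective spaces are
`C`-selective.
-/

open Set Filter Topology

namespace Pool.Agent.Q213.CS

/-- All countable regular Fréchet `α₁`-spaces are first countable. -/
def DS : Prop := ∀ (W : Type) [TopologicalSpace W] [Countable W] [T3Space W],
  FrechetUrysohnSpace W → AlphaOne W → FirstCountableTopology W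

theorem filter_cg (hDS : DS) {N : Type} [Countable N] (𝒢 : Filter N) (hfree : ∀ a, {a}ᶜ ∈ 𝒢)
    (hfr : ∀ s : Set N, (∀ U ∈ 𝒢, (s ∩ U).Nonempty) → ∃ u : ℕ → N, (∀ n, u n ∈ s) ∧
      Tendsto u atTop 𝒢)
    (ha : ∀ s : ℕ → ℕ → N, (∀ n, Tendsto (s n) atTop 𝒢) →
      ∃ B : Set N, (∀ U ∈ 𝒢, (B \ U).Finite) ∧ ∀ n, (range (s n) \ B).Finite) :
    𝒢.IsCountablyGenerated := by
  classical
  have ht3 : T3Space (XG 𝒢) := XG.t3 hfree
  have hF : FrechetUrysohnSpace (XG 𝒢) := by
    refine ⟨fun s x hx => ?_⟩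
    rcases XG.cases x with rfl | ⟨a, rfl⟩
    · by_cases hs : XG.inf 𝒢 ∈ s
      · exact ⟨fun _ => XG.inf 𝒢, fun _ => hs, tendsto_const_nhds⟩
      · obtain ⟨u, hu1, hu2⟩ := hfr (XG.pt 𝒢 ⁻¹' s) (by
          intro U hU
          have h1 : insert (XG.inf 𝒢) (XG.pt 𝒢 '' U) ∈ 𝓝 (XG.inf 𝒢) := by
            refine XG.mem_nhds_inf.2 ⟨mem_insert _ _, ?_⟩
            filter_upwards [hU] with a ha using Or.inr ⟨a, ha, rfl⟩
          obtain ⟨y, hy1, hy2⟩ := mem_closure_iff_nhds.1 hx _ h1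
          rcases hy1 with rfl | ⟨a, ha, rfl⟩
          · exact absurd hy2 hs
          · exact ⟨a, hy2, ha⟩)
        refine ⟨fun n => XG.pt 𝒢 (u n), hu1, ?_⟩
        rw [XG.nhds_inf]
        exact (tendsto_map.comp hu2).mono_right le_sup_right
    · obtain ⟨y, hy1, hy2⟩ := mem_closure_iff_nhds.1 hx {XG.pt 𝒢 a} (by
        rw [XG.nhds_pt]; exact mem_pure.2 rfl)
      obtain rfl : y = XG.pt 𝒢 a := hy1
      exact ⟨fun _ => _, fun _ => hy2, tendsto_const_nhds⟩
  have hA : AlphaOne (XG 𝒢) := by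
    intro x s hs ht
    rcases XG.cases x with rfl | ⟨a, rfl⟩
    · have h1 : ∀ n, ∃ m, ∀ j, s n (j + m) ≠ XG.inf 𝒢 := by
        intro n
        by_cases h : ∃ j, s n j = XG.inf 𝒢
        · obtain ⟨j0, hj0⟩ := h
          refine ⟨j0 + 1, fun j hj => ?_⟩
          have := hs n (hj.trans hj0.symm)
          omega
        · push Not at h
          exact ⟨0, fun j => h _⟩
      choose m hm using h1
      have h2 : ∀ n j, ∃ a, s n (j + m n) = XG.pt 𝒢 a := fun n j =>
        (XG.cases (s n (j + m n))).resolve_left (hm n j)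
      choose t ht' using h2
      obtain ⟨B, hB1, hB2⟩ := ha t (by
        intro n U hU
        have h3 : insert (XG.inf 𝒢) (XG.pt 𝒢 '' U) ∈ 𝓝 (XG.inf 𝒢) := by
          refine XG.mem_nhds_inf.2 ⟨mem_insert _ _, ?_⟩
          filter_upwards [hU] with a ha using Or.inr ⟨a, ha, rfl⟩
        have h4 : Tendsto (fun j => s n (j + m n)) atTop (𝓝 (XG.inf 𝒢)) :=
          (ht n).comp (tendsto_add_atTop_nat (m n))
        have h5 := h4 h3
        rw [mem_map] at h5 ⊢
        filter_upwards [h5] with j hj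
        rcases hj with hj | ⟨a, ha, haj⟩
        · exact absurd hj (hm n j)
        · have : s n (j + m n) = XG.pt 𝒢 a := haj.symm
          rw [ht' n j] at this
          show t n j ∈ U
          rw [XG.pt_inj this]
          exact ha)
      refine ⟨XG.pt 𝒢 '' B, fun U hU => ?_, fun n => ?_⟩
      · have h3 := hB1 _ (XG.mem_nhds_inf.1 hU).2
        refine (h3.image (XG.pt 𝒢)).subset ?_
        rintro _ ⟨⟨a, ha, rfl⟩, h4⟩
        exact ⟨a, ⟨ha, h4⟩, rfl⟩
      · refine (((hB2 n).image (XG.pt 𝒢)).union ((Set.finite_Iio (m n)).image (s n))).subset ?_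
        rintro _ ⟨⟨j, rfl⟩, h4⟩
        by_cases hj : j < m n
        · exact Or.inr ⟨j, hj, rfl⟩
        · obtain ⟨i, rfl⟩ : ∃ i, j = i + m n := ⟨j - m n, by omega⟩
          refine Or.inl ⟨t n i, ⟨⟨i, rfl⟩, fun h => h4 ⟨t n i, h, (ht' n i).symm⟩⟩, (ht' n i).symm⟩
    · exfalso
      have h1 := ht 0
      rw [XG.nhds_pt] at h1
      have h2 := tendsto_pure.1 h1
      obtain ⟨k, hk⟩ := eventually_atTop.1 h2
      have := hs 0 ((hk k le_rfl).trans (hk (k + 1) (by omega)).symm)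
      omega
  have h1 := hDS (XG 𝒢) hF hA
  have h2 : (𝓝 (XG.inf 𝒢)).IsCountablyGenerated := h1.nhds_generated_countable _
  have h3 : comap (XG.pt 𝒢) (𝓝 (XG.inf 𝒢)) = 𝒢 := by
    ext s
    rw [mem_comap']
    rw [XG.mem_nhds_inf]
    constructor
    · rintro ⟨-, h⟩
      filter_upwards [h] with a ha using ha rfl
    · intro h
      refine ⟨fun a ha => absurd ha (XG.pt_ne a), ?_⟩
      filter_upwards [h] with a ha b hb
      rw [XG.pt_inj hb]
      exact ha
  rw [← h3]
  infer_instance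

/-- The key lemma: for countably many closed sets the traces of the neighbourhoods of a point are
countably generated. -/
theorem key (hDS : DS) {X : Type*} [TopologicalSpace X] [T1Space X] (hX : Selective ℚ X)
    {N : Type} [Countable N] (φ : N → Set X) (hc : ∀ i, IsClosed (φ i)) (hne : ∀ i, (φ i).Nonempty)
    (x : X) (hx : ∀ i, x ∉ φ i) :
    ∃ V : ℕ → Set X, (∀ k, V k ∈ 𝓝 x) ∧ (∀ i, ∃ k, ¬ (φ i ∩ V k).Nonempty) ∧
      (∀ j k, j ≤ k → ∀ i, (φ i ∩ V k).Nonempty → (φ i ∩ V j).Nonempty) ∧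
      ∀ U ∈ 𝓝 x, ∃ k, ∀ i, (φ i ∩ V k).Nonempty → (φ i ∩ U).Nonempty := by
  classical
  let 𝒢 : Filter N := (𝓝 x).lift' fun U => {i | (φ i ∩ U).Nonempty}
  have hmono : Monotone fun U : Set X => {i | (φ i ∩ U).Nonempty} :=
    fun U V h i hi => hi.mono (inter_subset_inter_right _ h)
  have hmem : ∀ s : Set N, s ∈ 𝒢 ↔ ∃ U ∈ 𝓝 x, {i | (φ i ∩ U).Nonempty} ⊆ s :=
    fun s => mem_lift'_sets hmono
  have hfree : ∀ a, {a}ᶜ ∈ 𝒢 := by
    intro a
    refine (hmem _).2 ⟨(φ a)ᶜ, (hc a).isOpen_compl.mem_nhds (hx a), ?_⟩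
    rintro i ⟨z, hz1, hz2⟩ rfl
    exact hz2 hz1
  have hcg : 𝒢.IsCountablyGenerated := by
    refine filter_cg hDS 𝒢 hfree ?_ ?_
    · intro s hs
      have hsne : s.Nonempty := by
        obtain ⟨a, ha, -⟩ := hs univ univ_mem
        exact ⟨a, ha⟩
      obtain ⟨b, hb⟩ := s.to_countable.exists_eq_range hsne
      obtain ⟨g, hg1, hg2⟩ := fan hX (I := ℕ) (fun n => n) (fun n => ⋃ i ∈ Finset.range (n + 1), φ (b i))
        (fun n => isClosed_biUnion_finset fun i _ => hc _)
        (fun n => ⟨(hne (b 0)).some, mem_biUnion (Finset.mem_range.2 (Nat.succ_pos n))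
          (hne (b 0)).some_mem⟩) x (by
        intro U hU
        obtain ⟨a, ha, z, hz1, hz2⟩ := hs {i | (φ i ∩ U).Nonempty} ((hmem _).2 ⟨U, hU, subset_rfl⟩)
        rw [hb] at ha
        obtain ⟨n, rfl⟩ := ha
        exact ⟨n, fun m hm => ⟨z, mem_biUnion (Finset.mem_range.2 (by omega)) hz1, hz2⟩⟩)
      have h1 : ∀ n, ∃ i, g n ∈ φ (b i) := by
        intro n
        have := hg1 n
        simp only [mem_iUnion] at this
        obtain ⟨i, -, hi⟩ := this
        exact ⟨i, hi⟩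
      choose i hi using h1
      refine ⟨fun n => b (i n), fun n => by rw [hb]; exact ⟨_, rfl⟩, ?_⟩
      intro s' hs'
      obtain ⟨U, hU, hUs⟩ := (hmem _).1 hs'
      obtain ⟨n, hn⟩ := hg2 U hU
      rw [mem_map, mem_atTop_sets]
      exact ⟨n, fun m hm => hUs ⟨g m, hi m, hn m hm⟩⟩
    · intro s hs
      obtain ⟨g, hg1, hg2⟩ := fan hX (I := ℕ × ℕ) (fun p => p.1 + p.2)
        (fun p => φ (s p.1 p.2) ∪ φ (s 0 p.1)) (fun p => (hc _).union (hc _))
        (fun p => (hne _).mono subset_union_left) x (by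
        intro U hU
        have hU' : {i | (φ i ∩ U).Nonempty} ∈ 𝒢 := (hmem _).2 ⟨U, hU, subset_rfl⟩
        have h1 : ∀ n, ∃ m, ∀ j, m ≤ j → (φ (s n j) ∩ U).Nonempty := fun n =>
          eventually_atTop.1 (hs n hU')
        choose m hm using h1
        refine ⟨m 0 + ∑ n ∈ Finset.range (m 0), m n, fun p hp => ?_⟩
        by_cases h2 : m 0 ≤ p.1
        · exact (hm 0 p.1 h2).mono (inter_subset_inter_left _ subset_union_right)
        · push Not at h2
          have h3 : m p.1 ≤ ∑ n ∈ Finset.range (m 0), m n :=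
            Finset.single_le_sum (f := m) (fun _ _ => Nat.zero_le _) (Finset.mem_range.2 h2)
          exact (hm p.1 p.2 (by
            have h4 : m 0 + ∑ n ∈ Finset.range (m 0), m n ≤ p.1 + p.2 := hp
            omega)).mono
            (inter_subset_inter_left _ subset_union_left))
      refine ⟨{b | ∃ n j, b = s n j ∧ g (n, j) ∈ φ (s n j)}, ?_, ?_⟩
      · intro s' hs'
        obtain ⟨U, hU, hUs⟩ := (hmem _).1 hs'
        obtain ⟨k, hk⟩ := hg2 U hU
        refine (((Set.finite_Iio k).prod (Set.finite_Iio k)).image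
          (fun p : ℕ × ℕ => s p.1 p.2)).subset ?_
        rintro _ ⟨⟨n, j, rfl, h2⟩, h3⟩
        have h4 : n + j < k := by
          by_contra hcon
          exact h3 (hUs ⟨g (n, j), h2, hk (n, j) (show k ≤ n + j by omega)⟩)
        exact ⟨(n, j), ⟨show n < k by omega, show j < k by omega⟩, rfl⟩
      · intro n
        obtain ⟨k, hk⟩ := hg2 (φ (s 0 n))ᶜ ((hc _).isOpen_compl.mem_nhds (hx _))
        refine ((Set.finite_Iio k).image (s n)).subset ?_
        rintro _ ⟨⟨j, rfl⟩, h2⟩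
        refine ⟨j, ?_, rfl⟩
        by_contra hcon
        have h3 := hk (n, j) (show k ≤ n + j by
          have h5 : ¬ j < k := hcon
          omega)
        rcases hg1 (n, j) with h4 | h4
        · exact h2 ⟨n, j, rfl, h4⟩
        · exact h3 h4
  obtain ⟨W, hW⟩ := 𝒢.exists_antitone_basis
  have hWm : ∀ k, ∃ V ∈ 𝓝 x, {i | (φ i ∩ V).Nonempty} ⊆ W k := fun k =>
    (hmem _).1 (hW.toHasBasis.mem_of_mem trivial)
  choose V0 hV0 hV1 using hWm
  refine ⟨fun k => ⋂ j ∈ Finset.range (k + 1), V0 j, ?_, ?_, ?_, ?_⟩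
  · intro k
    exact (Filter.biInter_finset_mem _).2 fun j _ => hV0 j
  · intro a
    obtain ⟨k, -, hk⟩ := hW.toHasBasis.mem_iff.1 (hfree a)
    refine ⟨k, fun h => ?_⟩
    have h1 : a ∈ W k := hV1 k (h.mono (inter_subset_inter_right _
      (biInter_subset_of_mem (Finset.mem_range.2 (Nat.lt_succ_self k)))))
    exact hk h1 rfl
  · intro j k hjk i hi
    refine hi.mono (inter_subset_inter_right _ ?_)
    exact biInter_subset_biInter_left fun l hl => Finset.mem_range.2
      (lt_of_lt_of_le (Finset.mem_range.1 hl) (by omega))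
  · intro U hU
    obtain ⟨k, -, hk⟩ := hW.toHasBasis.mem_iff.1 ((hmem _).2 ⟨U, hU, subset_rfl⟩ :
      {i | (φ i ∩ U).Nonempty} ∈ 𝒢)
    refine ⟨k, fun i hi => ?_⟩
    exact hk (hV1 k (hi.mono (inter_subset_inter_right _
      (biInter_subset_of_mem (Finset.mem_range.2 (Nat.lt_succ_self k))))))

end Pool.Agent.Q213.CS
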