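import Pool.Agent.Q213.CS.MainA

set_option autoImplicit false

/-!
A countable space with one non-isolated point is `C`-selective only if it is first countable.
-/

open Set Filter Topology

namespace Pool.Agent.Q213.CS

/-- The test map. -/
def test (𝒢 : Filter ℕ) (ℬ : Filter (ℕ × ℕ)) : XG ℬ → Set (XG 𝒢) := fun x =>
  match (show Option (ℕ × ℕ) from x) with
  | none => {XG.inf 𝒢}
  | some p => {XG.pt 𝒢 p.1, XG.pt 𝒢 p.2}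

theorem test_inf (𝒢 : Filter ℕ) (ℬ : Filter (ℕ × ℕ)) : test 𝒢 ℬ (XG.inf ℬ) = {XG.inf 𝒢} := rfl

theorem test_pt (𝒢 : Filter ℕ) (ℬ : Filter (ℕ × ℕ)) (p : ℕ × ℕ) :
    test 𝒢 ℬ (XG.pt ℬ p) = {XG.pt 𝒢 p.1, XG.pt 𝒢 p.2} := rfl

theorem notC {𝒢 : Filter ℕ} (hfree : ∀ a, {a}ᶜ ∈ 𝒢) (hC : CSelective (XG 𝒢)) :
    𝒢.IsCountablyGenerated := by
  classical
  rcases eq_or_neBot 𝒢 with rfl | hbot
  · infer_instance
  let ℬ : Filter (ℕ × ℕ) := 𝒢.lift' fun U => {p | p.1 ∈ U ∨ p.2 ∈ U}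
  have hmono : Monotone fun U : Set ℕ => {p : ℕ × ℕ | p.1 ∈ U ∨ p.2 ∈ U} :=
    fun U V h p hp => hp.imp (fun h' => h h') (fun h' => h h')
  have hmem : ∀ s : Set (ℕ × ℕ), s ∈ ℬ ↔ ∃ U ∈ 𝒢, {p : ℕ × ℕ | p.1 ∈ U ∨ p.2 ∈ U} ⊆ s :=
    fun s => mem_lift'_sets hmono
  have hfree' : ∀ p, {p}ᶜ ∈ ℬ := by
    intro p
    refine (hmem _).2 ⟨_, inter_mem (hfree p.1) (hfree p.2), ?_⟩
    rintro p' h rfl
    rcases h with h | h
    · exact h.1 rfl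
    · exact h.2 rfl
  have h3 : T3Space (XG 𝒢) := XG.t3 hfree
  have h3' : T3Space (XG ℬ) := XG.t3 hfree'
  obtain ⟨f, hfc, hf⟩ := hC (XG ℬ) (test 𝒢 ℬ) (by
    intro x
    rcases XG.cases x with rfl | ⟨p, rfl⟩
    · rw [test_inf]; exact isClosed_singleton
    · rw [test_pt]; exact ((finite_singleton _).insert _).isClosed) (by
    intro x
    rcases XG.cases x with rfl | ⟨p, rfl⟩
    · exact ⟨_, rfl⟩
    · exact ⟨_, Or.inl rfl⟩) (by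
    refine lsc_of_ev fun x z hz U hU => ?_
    rcases XG.cases x with rfl | ⟨p, rfl⟩
    · obtain rfl : z = XG.inf 𝒢 := hz
      refine XG.mem_nhds_inf.2 ⟨⟨_, rfl, mem_of_mem_nhds hU⟩, ?_⟩
      refine (hmem _).2 ⟨_, (XG.mem_nhds_inf.1 hU).2, ?_⟩
      rintro p (h | h)
      · exact ⟨XG.pt 𝒢 p.1, Or.inl rfl, h⟩
      · exact ⟨XG.pt 𝒢 p.2, Or.inr rfl, h⟩
    · rw [XG.nhds_pt]
      exact mem_pure.2 ⟨z, hz, mem_of_mem_nhds hU⟩)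
  have hinf : f (XG.inf ℬ) = XG.inf 𝒢 := hf (XG.inf ℬ)
  have hpt : ∀ a b, f (XG.pt ℬ (a, b)) = XG.pt 𝒢 a ∨ f (XG.pt ℬ (a, b)) = XG.pt 𝒢 b := by
    intro a b
    have := hf (XG.pt ℬ (a, b))
    rw [test_pt] at this
    exact this
  have hV : ∀ U ∈ 𝒢, ∃ V ∈ 𝒢, ∀ a b, (a ∈ V ∨ b ∈ V) → ∃ c ∈ U, f (XG.pt ℬ (a, b)) = XG.pt 𝒢 c := by
    intro U hU
    have h1 : insert (XG.inf 𝒢) (XG.pt 𝒢 '' U) ∈ 𝓝 (XG.inf 𝒢) := by
      refine XG.mem_nhds_inf.2 ⟨mem_insert _ _, ?_⟩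
      filter_upwards [hU] with a ha using Or.inr ⟨a, ha, rfl⟩
    have h2 := hfc.continuousAt (x := XG.inf ℬ)
    rw [ContinuousAt, hinf] at h2
    obtain ⟨V, hV, hVs⟩ := (hmem _).1 (XG.mem_nhds_inf.1 (h2 h1)).2
    refine ⟨V, hV, fun a b hab => ?_⟩
    have h4 : f (XG.pt ℬ (a, b)) ∈ insert (XG.inf 𝒢) (XG.pt 𝒢 '' U) := hVs hab
    rcases h4 with h4 | ⟨c, hc, h4⟩
    · rcases hpt a b with h5 | h5
      · exact absurd (h5.symm.trans h4) (XG.pt_ne _)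
      · exact absurd (h5.symm.trans h4) (XG.pt_ne _)
    · exact ⟨c, hc, h4.symm⟩
  refine cg_of_seq (fun v => {a | f (XG.pt ℬ (v, a)) = XG.pt 𝒢 a}) ?_ ?_
  · intro v
    obtain ⟨V, hV1, hV2⟩ := hV _ (hfree v)
    filter_upwards [hV1] with a ha
    obtain ⟨c, hc, h5⟩ := hV2 v a (Or.inr ha)
    rcases hpt v a with h6 | h6
    · exact absurd (XG.pt_inj (h5.symm.trans h6)) hc
    · exact h6
  · intro t ht
    obtain ⟨V, hV1, hV2⟩ := hV t ht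
    obtain ⟨v, hv⟩ := hbot.nonempty_of_mem hV1
    refine ⟨v, fun a ha => ?_⟩
    obtain ⟨c, hc, h5⟩ := hV2 v a (Or.inl hv)
    have h6 : f (XG.pt ℬ (v, a)) = XG.pt 𝒢 a := ha
    rw [XG.pt_inj (h6.symm.trans h5)]
    exact hc

end Pool.Agent.Q213.CS
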