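import Pool.Agent.Q213.CS.NotC

set_option autoImplicit false

/-!
States of the recursion under the continuum hypothesis: a countably generated filter together with
countably many germs of selections which converge to the non-isolated point.
-/

open Set Filter Topology

namespace Pool.Agent.Q213.CS

theorem XG.isOpen_iff {N : Type*} {𝒢 : Filter N} {U : Set (XG 𝒢)} :
    IsOpen U ↔ (XG.inf 𝒢 ∈ U → XG.pt 𝒢 ⁻¹' U ∈ 𝒢) := by
  rw [isOpen_iff_mem_nhds]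
  constructor
  · exact fun h hx => (XG.mem_nhds_inf.1 (h _ hx)).2
  · intro h x hx
    rcases XG.cases x with rfl | ⟨a, rfl⟩
    · exact XG.mem_nhds_inf.2 ⟨hx, h hx⟩
    · rw [XG.nhds_pt]; exact mem_pure.2 hx

/-- Lower semicontinuity with respect to the filter `𝒢`. -/
def L (𝒢 : Filter ℕ) (Φ : ℚ → Set (Option ℕ)) : Prop := @LSC ℚ (XG 𝒢) _ _ Φ

theorem L.mono {𝒢 𝒢' : Filter ℕ} (h : 𝒢' ≤ 𝒢) {Φ : ℚ → Set (Option ℕ)} (hL : L 𝒢' Φ) : L 𝒢 Φ := by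
  intro U hU
  exact hL U (XG.isOpen_iff.2 fun hx => h (XG.isOpen_iff.1 hU hx))

/-- The filter of the traces on `ℕ` of the images of the neighbourhoods of `q`. -/
def Eg (f : ℚ → Option ℕ) (q : ℚ) : Filter ℕ := comap some (map f (𝓝 q))

theorem mem_Eg {f : ℚ → Option ℕ} {q : ℚ} {U : Set ℕ} :
    U ∈ Eg f q ↔ ∀ᶠ q' in 𝓝 q, ∀ n, f q' = some n → n ∈ U := by
  unfold Eg
  rw [mem_comap', mem_map]
  constructor
  · intro h
    filter_upwards [h] with q' h n hn using h hn.symm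
  · intro h
    filter_upwards [h] with q' h n hn using h n hn.symm

/-- `f` is continuous with respect to the filter `𝒢`. -/
structure Cf (𝒢 : Filter ℕ) (f : ℚ → Option ℕ) : Prop where
  pt : ∀ q n, f q = some n → ∀ᶠ q' in 𝓝 q, f q' = some n
  inf : ∀ q, f q = none → Eg f q ≤ 𝒢

theorem cf_of_cont {𝒢 : Filter ℕ} (F : ℚ → XG 𝒢) (h : Continuous F) : Cf 𝒢 F := by
  refine ⟨fun q n hq => ?_, fun q hq U hU => ?_⟩
  · have h1 : Tendsto F (𝓝 q) (𝓝 (F q)) := h.continuousAt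
    have h0 : F q = XG.pt 𝒢 n := hq
    have h2 : ({XG.pt 𝒢 n} : Set (XG 𝒢)) ∈ 𝓝 (F q) := by
      rw [h0, XG.nhds_pt]
      exact mem_pure.2 rfl
    exact h1 h2
  · have h1 : Tendsto F (𝓝 q) (𝓝 (F q)) := h.continuousAt
    have h0 : F q = XG.inf 𝒢 := hq
    have h2 : insert (XG.inf 𝒢) (XG.pt 𝒢 '' U) ∈ 𝓝 (F q) := by
      rw [h0]
      refine XG.mem_nhds_inf.2 ⟨mem_insert _ _, ?_⟩
      filter_upwards [hU] with a ha using Or.inr ⟨a, ha, rfl⟩
    rw [mem_Eg]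
    filter_upwards [h1 h2] with q' hq' n hn
    have hn' : F q' = XG.pt 𝒢 n := hn
    rcases hq' with hq' | ⟨a, ha, hq'⟩
    · exact absurd (hn'.symm.trans hq') (XG.pt_ne n)
    · rw [XG.pt_inj (hn'.symm.trans hq'.symm)]
      exact ha

theorem cont_of_cf {𝒢 : Filter ℕ} (F : ℚ → XG 𝒢) (h : Cf 𝒢 F) : Continuous F := by
  rw [continuous_iff_continuousAt]
  intro q U hU
  rw [mem_map]
  rcases XG.cases (F q) with hf | ⟨n, hf⟩
  · rw [hf] at hU
    obtain ⟨h1, h2⟩ := XG.mem_nhds_inf.1 hU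
    filter_upwards [mem_Eg.1 (h.inf q hf h2)] with q' hq'
    show F q' ∈ U
    rcases XG.cases (F q') with hf' | ⟨n, hf'⟩
    · rw [hf']; exact h1
    · rw [hf']; exact hq' n hf'
  · filter_upwards [h.pt q n hf] with q' hq'
    show F q' ∈ U
    have h3 : F q' = F q := (show F q' = XG.pt 𝒢 n from hq').trans hf.symm
    rw [h3]
    exact mem_of_mem_nhds hU

/-- States. -/
structure St where
  /-- the filter -/
  𝒢 : Filter ℕ
  /-- the germs, with one of their members -/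
  𝒮 : Set (Filter ℕ × Set ℕ)
  cg : 𝒢.IsCountablyGenerated
  free : 𝒢 ≤ cofinite
  cnt : 𝒮.Countable
  mem : ∀ p ∈ 𝒮, p.2 ∈ p.1
  le : ∀ p ∈ 𝒮, p.1 ≤ 𝒢
  pos : ∀ t : Set (Filter ℕ × Set ℕ), t.Finite → t ⊆ 𝒮 → ∀ U ∈ 𝒢, (U \ ⋃ p ∈ t, p.2).Nonempty

/-- `s'` extends `s`. -/
def Ext (s' s : St) : Prop := s'.𝒢 ≤ s.𝒢 ∧ s.𝒮 ⊆ s'.𝒮

theorem Ext.rfl' (s : St) : Ext s s := ⟨le_rfl, subset_rfl⟩

theorem Ext.trans' {a b c : St} (h : Ext a b) (h' : Ext b c) : Ext a c :=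
  ⟨h.1.trans h'.1, h'.2.trans h.2⟩

/-- The set which splits everything. -/
theorem exG (s : St) : ∃ G : Set ℕ, (∀ p ∈ s.𝒮, G ∈ p.1) ∧
    (∀ t : Set (Filter ℕ × Set ℕ), t.Finite → t ⊆ s.𝒮 → ∀ U ∈ s.𝒢,
      ((U ∩ G) \ ⋃ p ∈ t, p.2).Nonempty) ∧
    (∀ t : Set (Filter ℕ × Set ℕ), t.Finite → t ⊆ s.𝒮 → ∀ U ∈ s.𝒢,
      (U \ (G ∪ ⋃ p ∈ t, p.2)).Nonempty) := by
  classical
  obtain ⟨e, he⟩ := Set.countable_iff_exists_subset_range.1 s.cnt
  have := s.cg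
  obtain ⟨W, hW⟩ := s.𝒢.exists_antitone_basis
  let E : ℕ → Set ℕ := fun i => if e i ∈ s.𝒮 then (e i).2 else ∅
  let A : ℕ → Set ℕ := fun m => W m \ ⋃ i ∈ Finset.range m, E i
  have hA : ∀ m b, ∃ z, z ∈ A m ∧ b < z := by
    intro m b
    have h1 : {z : ℕ | b < z} ∈ s.𝒢 := by
      apply s.free
      rw [mem_cofinite]
      refine (Set.finite_Iic b).subset ?_
      intro z hz
      exact not_lt.1 (show ¬ b < z from hz)
    obtain ⟨z, ⟨hz1, hz2⟩, hz3⟩ := s.pos (e '' {i | i < m ∧ e i ∈ s.𝒮})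
      (((Set.finite_Iio m).subset fun i hi => hi.1).image _)
      (by rintro _ ⟨i, hi, rfl⟩; exact hi.2) (W m ∩ {z | b < z})
      (inter_mem (hW.toHasBasis.mem_of_mem trivial) h1)
    refine ⟨z, ⟨hz1, fun h => hz3 ?_⟩, hz2⟩
    simp only [mem_iUnion] at h ⊢
    obtain ⟨i, hi, hz⟩ := h
    by_cases hs : e i ∈ s.𝒮
    · simp only [E, if_pos hs] at hz
      exact ⟨e i, ⟨i, ⟨Finset.mem_range.1 hi, hs⟩, rfl⟩, hz⟩
    · simp only [E, if_neg hs] at hz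
      exact absurd hz (notMem_empty _)
  choose F hF1 hF2 using hA
  let z : ℕ → ℕ := fun m => Nat.rec (F 0 0) (fun m z => F (m + 1) z) m
  have hzs : ∀ m, z (m + 1) = F (m + 1) (z m) := fun m => rfl
  have hzA : ∀ m, z m ∈ A m := by
    intro m
    cases m with
    | zero => exact hF1 0 0
    | succ m => rw [hzs]; exact hF1 _ _
  have hz : StrictMono z := strictMono_nat_of_lt_succ fun m => by rw [hzs]; exact hF2 _ _
  have hbig : ∀ t : Set (Filter ℕ × Set ℕ), t.Finite → t ⊆ s.𝒮 → ∀ U ∈ s.𝒢,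
      ∃ m, ∀ k, m ≤ k → z k ∈ U ∧ z k ∉ ⋃ p ∈ t, p.2 := by
    intro t ht hts U hU
    obtain ⟨m0, -, hm0⟩ := hW.toHasBasis.mem_iff.1 hU
    have h1 : ∃ j0, ∀ p ∈ t, ∃ i, i < j0 ∧ e i = p := by
      have h2 : ∀ p ∈ t, ∃ i, e i = p := fun p hp => he (hts hp)
      choose! i hi using h2
      obtain ⟨j, hj⟩ := (ht.image i).bddAbove
      exact ⟨j + 1, fun p hp => ⟨i p, Nat.lt_succ_of_le (hj ⟨p, hp, rfl⟩), hi p hp⟩⟩
    obtain ⟨j0, hj0⟩ := h1
    refine ⟨max m0 j0, fun k hk => ⟨hm0 (hW.antitone (le_trans (le_max_left _ _) hk) (hzA k).1), ?_⟩⟩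
    intro h
    simp only [mem_iUnion] at h
    obtain ⟨p, hp, hpz⟩ := h
    obtain ⟨i, hi, hip⟩ := hj0 p hp
    refine (hzA k).2 ?_
    simp only [mem_iUnion]
    refine ⟨i, Finset.mem_range.2 (lt_of_lt_of_le hi (le_trans (le_max_right _ _) hk)), ?_⟩
    have hs : e i ∈ s.𝒮 := by rw [hip]; exact hts hp
    simp only [E, if_pos hs, hip]
    exact hpz
  refine ⟨(range fun m => z (2 * m))ᶜ, ?_, ?_, ?_⟩
  · intro p hp
    obtain ⟨j, rfl⟩ := he hp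
    have h1 : ((fun m => z (2 * m)) '' Set.Iic j)ᶜ ∈ (e j).1 := by
      apply (s.le _ hp).trans s.free
      rw [mem_cofinite, compl_compl]
      exact (Set.finite_Iic j).image _
    filter_upwards [s.mem _ hp, h1] with a ha1 ha2
    rintro ⟨m, rfl⟩
    by_cases hm : m ≤ j
    · exact ha2 ⟨m, hm, rfl⟩
    · refine (hzA (2 * m)).2 ?_
      simp only [mem_iUnion]
      refine ⟨j, Finset.mem_range.2 (by omega), ?_⟩
      simp only [E, if_pos hp]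
      exact ha1
  · intro t ht hts U hU
    obtain ⟨m, hm⟩ := hbig t ht hts U hU
    obtain ⟨h1, h2⟩ := hm (2 * m + 1) (by omega)
    refine ⟨z (2 * m + 1), ⟨h1, ?_⟩, h2⟩
    rintro ⟨m', h3⟩
    have h4 : 2 * m' = 2 * m + 1 := hz.injective h3
    omega
  · intro t ht hts U hU
    obtain ⟨m, hm⟩ := hbig t ht hts U hU
    obtain ⟨h1, h2⟩ := hm (2 * m) (by omega)
    refine ⟨z (2 * m), h1, ?_⟩
    rintro (h3 | h3)
    · exact h3 ⟨m, rfl⟩
    · exact h2 h3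

/-- Adding a set to the filter. -/
theorem addG (s : St) (G : Set ℕ) (h1 : ∀ p ∈ s.𝒮, G ∈ p.1)
    (h2 : ∀ t : Set (Filter ℕ × Set ℕ), t.Finite → t ⊆ s.𝒮 → ∀ U ∈ s.𝒢,
      ((U ∩ G) \ ⋃ p ∈ t, p.2).Nonempty) :
    ∃ s' : St, Ext s' s ∧ s'.𝒢 = s.𝒢 ⊓ 𝓟 G ∧ s'.𝒮 = s.𝒮 := by
  have := s.cg
  refine ⟨⟨s.𝒢 ⊓ 𝓟 G, s.𝒮, inferInstance, inf_le_left.trans s.free, s.cnt, s.mem,
    fun p hp => le_inf (s.le p hp) (le_principal_iff.2 (h1 p hp)), ?_⟩, ⟨inf_le_left, subset_rfl⟩,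
    rfl, rfl⟩
  intro t ht hts U hU
  rw [mem_inf_principal] at hU
  obtain ⟨z, ⟨hz1, hz2⟩, hz3⟩ := h2 t ht hts _ hU
  exact ⟨z, hz1 hz2, hz3⟩

/-- `Φ` is dealt with in the state `s`. -/
def Treat (Φ : ℚ → Set (Option ℕ)) (s : St) : Prop :=
  (∃ q, ¬ (Φ q).Nonempty) ∨ ¬ L s.𝒢 Φ ∨ ∃ f : ℚ → Option ℕ, (∀ q, f q ∈ Φ q) ∧
    (∀ q n, f q = some n → ∀ᶠ q' in 𝓝 q, f q' = some n) ∧
    ∀ q, f q = none → ∃ E, (Eg f q, E) ∈ s.𝒮

theorem Treat.mono {Φ : ℚ → Set (Option ℕ)} {s s' : St} (h : Ext s' s) (ht : Treat Φ s) :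
    Treat Φ s' := by
  rcases ht with ht | ht | ⟨f, h1, h2, h3⟩
  · exact Or.inl ht
  · exact Or.inr (Or.inl fun hL => ht (hL.mono h.1))
  · exact Or.inr (Or.inr ⟨f, h1, h2, fun q hq => (h3 q hq).imp fun E hE => h.2 hE⟩)

theorem treat (s : St) (Φ : ℚ → Set (Option ℕ)) : ∃ s', Ext s' s ∧ Treat Φ s' := by
  classical
  by_cases hne : ∃ q, ¬ (Φ q).Nonempty
  · exact ⟨s, Ext.rfl' s, Or.inl hne⟩
  push Not at hne
  obtain ⟨G, hG1, hG2, hG3⟩ := exG s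
  obtain ⟨s', h1, h2, h3⟩ := addG s G hG1 hG2
  by_cases hL : L s'.𝒢 Φ
  · have hfree : ∀ a, {a}ᶜ ∈ s'.𝒢 := fun a => s'.free (by simp)
    have hfc : FirstCountableTopology (XG s'.𝒢) := by
      have := s'.cg
      refine ⟨fun x => ?_⟩
      rcases XG.cases x with rfl | ⟨a, rfl⟩
      · rw [XG.nhds_inf]; infer_instance
      · rw [XG.nhds_pt]; infer_instance
    obtain ⟨f, hf1, hf2⟩ := michael (Y := ℚ) (X := XG s'.𝒢) (φ := Φ) hL hne
    have hcf : Cf s'.𝒢 f := cf_of_cont f hf1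
    have hle : s'.𝒢 ≤ s.𝒢 := h1.1
    have hG : G ∈ s'.𝒢 := by rw [h2]; exact mem_inf_of_right (mem_principal_self G)
    let T : Set (Filter ℕ × Set ℕ) := (fun q => (Eg f q, G)) '' {q | f q = none}
    refine ⟨⟨s.𝒢, s.𝒮 ∪ T, s.cg, s.free, s.cnt.union ((to_countable _).image _), ?_, ?_, ?_⟩,
      ⟨le_rfl, subset_union_left⟩, Or.inr (Or.inr ⟨f, hf2, hcf.pt, fun q hq => ⟨G, Or.inr ⟨q, hq, rfl⟩⟩⟩)⟩
    · rintro p (hp | ⟨q, hq, rfl⟩)
      · exact s.mem p hp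
      · exact hcf.inf q hq hG
    · rintro p (hp | ⟨q, hq, rfl⟩)
      · exact s.le p hp
      · exact (hcf.inf q hq).trans hle
    · intro t ht hts U hU
      obtain ⟨z, hz1, hz2⟩ := hG3 (t ∩ s.𝒮) (ht.inter_of_left _) inter_subset_right U hU
      refine ⟨z, hz1, fun h => hz2 ?_⟩
      simp only [mem_iUnion] at h
      obtain ⟨p, hp, hpz⟩ := h
      rcases hts hp with h4 | ⟨q, hq, rfl⟩
      · right
        simp only [mem_iUnion]
        exact ⟨p, ⟨hp, h4⟩, hpz⟩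
      · exact Or.inl hpz
  · exact ⟨s', h1, Or.inr (Or.inl hL)⟩

/-- The sequence `V` is not a base of the final filter, by the state `s`. -/
def TreatV (V : ℕ → Set ℕ) (s : St) : Prop := (∀ k, V k ∈ s.𝒢) → ∃ G ∈ s.𝒢, ∀ k, ¬ V k ⊆ G

theorem treatV (s : St) (V : ℕ → Set ℕ) : ∃ s', Ext s' s ∧ TreatV V s' := by
  by_cases hV : ∀ k, V k ∈ s.𝒢
  · obtain ⟨G, hG1, hG2, hG3⟩ := exG s
    obtain ⟨s', h1, h2, h3⟩ := addG s G hG1 hG2
    refine ⟨s', h1, fun _ => ⟨G, by rw [h2]; exact mem_inf_of_right (mem_principal_self G), ?_⟩⟩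
    intro k hk
    obtain ⟨z, hz1, hz2⟩ := hG3 ∅ finite_empty (empty_subset _) (V k) (hV k)
    exact hz2 (Or.inl (hk hz1))
  · exact ⟨s, Ext.rfl' s, fun h => absurd h hV⟩

/-- Countable decreasing sequences of states have lower bounds. -/
theorem closed (p : ℕ → St) (hp : ∀ n, Ext (p (n + 1)) (p n)) : ∃ q, ∀ n, Ext q (p n) := by
  have hmono : ∀ m n, m ≤ n → Ext (p n) (p m) := by
    intro m n h
    induction n, h using Nat.le_induction with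
    | base => exact Ext.rfl' _
    | succ n _ ih => exact (hp n).trans' ih
  have hdir : Directed (· ≥ ·) fun n => (p n).𝒢 := by
    intro m n
    exact ⟨max m n, (hmono _ _ (le_max_left _ _)).1, (hmono _ _ (le_max_right _ _)).1⟩
  have := fun n => (p n).cg
  refine ⟨⟨⨅ n, (p n).𝒢, ⋃ n, (p n).𝒮, inferInstance, (iInf_le _ 0).trans (p 0).free,
    countable_iUnion fun n => (p n).cnt, ?_, ?_, ?_⟩, fun n => ⟨iInf_le _ n, subset_iUnion (fun n => (p n).𝒮) n⟩⟩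
  · intro a ha
    obtain ⟨n, hn⟩ := mem_iUnion.1 ha
    exact (p n).mem a hn
  · intro a ha
    obtain ⟨n, hn⟩ := mem_iUnion.1 ha
    refine le_iInf fun m => ?_
    rcases le_total m n with h | h
    · exact ((p n).le a hn).trans (hmono m n h).1
    · exact (p m).le a ((hmono n m h).2 hn)
  · intro t ht hts U hU
    obtain ⟨m, hm⟩ := (mem_iInf_of_directed hdir U).1 hU
    have h1 : ∃ n, t ⊆ (p n).𝒮 := by
      induction t, ht using Set.Finite.induction_on with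
      | empty => exact ⟨0, empty_subset _⟩
      | @insert a t _ _ ih =>
        obtain ⟨n, hn⟩ := ih ((subset_insert _ _).trans hts)
        obtain ⟨k, hk⟩ := mem_iUnion.1 (hts (mem_insert _ _))
        refine ⟨max n k, insert_subset ((hmono _ _ (le_max_right _ _)).2 hk) ?_⟩
        exact hn.trans (hmono _ _ (le_max_left _ _)).2
    obtain ⟨n, hn⟩ := h1
    exact (p (max m n)).pos t ht (hn.trans (hmono _ _ (le_max_right _ _)).2) U
      ((hmono _ _ (le_max_left _ _)).1 hm)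

instance : Nonempty St := by
  refine ⟨⟨cofinite, ∅, by rw [Nat.cofinite_eq_atTop]; infer_instance, le_rfl, countable_empty, fun p hp => absurd hp (notMem_empty p),
    fun p hp => absurd hp (notMem_empty p), ?_⟩⟩
  intro t _ hts U hU
  have h1 : t = ∅ := subset_empty_iff.1 hts
  subst h1
  have : (U : Set ℕ).Nonempty := NeBot.nonempty_of_mem inferInstance hU
  simpa using this

end Pool.Agent.Q213.CS
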